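import Pool.Agent.Work.MP_ce2d68_st.Interface

set_option autoImplicit false

open Polynomial Filter Topology
open scoped ComplexConjugate

/-!
MP_ce2d68_nt, strong duality: the essential constant of a sector is the best constant that a single
auxiliary polynomial proves,
`ess θ = sup {v | ∃ n ≥ 1, ∃ Q ∈ ℤ[X], Q ≠ 0, ∀ z, |arg z| ≤ θ → v ^ n |Q z| ≤ max(1,|z|) ^ n}`.
Each `Stmt_…` is a block; the proof is in its docstring.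
-/

namespace Pool.Agent.Work.MP_ce2d68_du

open Pool.Agent.Work.MP_ce2d68_st

/-- irreducible integer polynomials of positive degree (not necessarily monic) -/
def IP (P : ℤ[X]) : Prop := Irreducible P ∧ 0 < P.natDegree

/-- logarithm of the absolute value of the leading coefficient -/
noncomputable def llc (P : ℤ[X]) : ℝ := Real.log |((P.leadingCoeff : ℤ) : ℝ)|

/-- the average of `log |P|` on the circle `|z - a| = t`, written out -/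
noncomputable def Lt (t : ℝ) (P : ℤ[X]) (a : ℂ) : ℝ :=
  llc P + ∑ x ∈ rts P, Real.log (max ‖x - a‖ t)

/-- products of the functions `max (|z - a|, t)` -/
noncomputable def Tn (G : Finset ℂ) (t : ℝ) (n : ℂ → ℕ) (z : ℂ) : ℝ :=
  ∏ a ∈ G, (max ‖z - a‖ t) ^ n a

/-- total degree of a list of polynomials -/
noncomputable def sd (Ls : List ℤ[X]) : ℕ := (Ls.map natDegree).sum

/-- certificates -/
def Cert (θ v : ℝ) : Prop :=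
  ∃ (n : ℕ) (Q : ℤ[X]), 1 ≤ n ∧ Q ≠ 0 ∧
    ∀ z : ℂ, |z.arg| ≤ θ → v ^ n * ‖ev Q z‖ ≤ (max 1 ‖z‖) ^ n

/-! ### Part A: digits for non-monic irreducible polynomials -/

/-- `NBAS`: basic facts. `P` is irreducible of positive degree, so primitive, so irreducible over `ℚ`
(Gauss), separable: the complex roots are simple, `P` divides every integer polynomial vanishing at
one of its roots (Gauss). Compare `Work/MP_ce2d68_st_helper55/BAS.lean`. -/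
def Stmt_NBAS : Prop :=
  ∀ P : ℤ[X], IP P →
    cp P = C ((P.leadingCoeff : ℤ) : ℂ) * ∏ a ∈ rts P, (X - C a) ∧
    (rts P).card = P.natDegree ∧ (∀ a ∈ rts P, conj a ∈ rts P) ∧ 0 ≤ llc P ∧
    (∀ a, a ∈ rts P ↔ ev P a = 0) ∧ ∀ Q : ℤ[X], ∀ a ∈ rts P, ev Q a = 0 → P ∣ Q

/-- `NMINK`: pigeonhole principle as in `Work/MP_ce2d68_st_helper46/MINK.lean`. Let `d = deg P`,
`a₀` the leading coefficient, `B = 1 + ∑_a ∑_{k<d} |a|^k`. For `y ∈ {0..|a₀|-1}^L` let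
`Y = ∑ y_j z^(d+j)`; the remainder of `Y` modulo `P` over `ℝ` has coefficients `r_k`, `k < d`;
for `x' ∈ {0..H}^d` take the polynomial `Y + ∑ (x'_k - ⌊r_k⌋) z^k`: its values at the roots are
`∑ (fract r_k + x'_k) a^k`, of absolute value `≤ (H+1) B`. There are `(H+1)^d |a₀|^L` pairs; boxes
of side `3 B e^(t a)` (coordinates `uu` of MINK): less than that many (up to adjusting constants).
The difference `w` of two of them in the same box is not divisible by `P`: if the `y`-parts differ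
its leading coefficient is nonzero of absolute value `< |a₀|`, otherwise its degree is `< d`. By
`NBAS` it does not vanish at the roots. -/
def Stmt_NMINK : Prop :=
  ∀ P : ℤ[X], IP P → ∃ c : ℝ, 0 < c ∧ ∀ (L : ℕ) (t : ℂ → ℝ), Sym t →
    ∑ a ∈ rts P, t a = -(L * llc P) →
    ∃ w : ℤ[X], w.natDegree < P.natDegree + L ∧
      ∀ a ∈ rts P, ev w a ≠ 0 ∧ ‖ev w a‖ ≤ c * Real.exp (t a)

/-- `NCOV`: weighted rounding, as in `Work/MP_ce2d68_st_helper30/COV.lean`: `g = w U`, `w` from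
`NMINK`, `U` the coefficientwise rounding of the real polynomial `u₀` of degree `< deg P` with
`w u₀ = f / 4` at the roots. -/
def Stmt_NCOV : Prop :=
  ∀ P : ℤ[X], IP P → ∃ c : ℝ, 0 < c ∧ ∀ (L : ℕ) (t : ℂ → ℝ), Sym t →
    ∑ a ∈ rts P, t a = -(L * llc P) → ∀ f : ℝ[X],
    ∃ g : ℤ[X], g.degree < ((2 * P.natDegree + L : ℕ) : WithBot ℕ) ∧
      ∀ a ∈ rts P, ‖rv f a - 4 * ev g a‖ ≤ c * Real.exp (t a)

/-- `NDIG`: one digit in base `P`, as in `Work/MP_ce2d68_st_helper23/DIG.lean` (there for families of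
monic polynomials). Use `NCOV` with `t a = (∑ S - L llc P) / deg P - S a`, `u = g`,
`h = ` real part of `∑_a (f a - 4 u a) (Lagrange basis)_a g_a`. -/
def Stmt_NDIG : Prop :=
  ∀ (K : Set ℂ), IsCompact K → (∀ z ∈ K, conj z ∈ K) → ∀ P : ℤ[X], IP P →
    ∃ c : ℝ, 0 < c ∧ ∀ (W : ℤ[X]) (T : ℂ → ℝ) (D L : ℕ) (S : ℂ → ℝ) (g : ℂ → ℂ[X]),
      Sym T → (∀ z ∈ K, 0 ≤ T z) → Sym S → 2 * P.natDegree + L ≤ D →
      (∀ a ∈ rts P, (g a).natDegree + P.natDegree ≤ D ∧ (g a).eval a = 1 ∧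
        ∀ z ∈ K, ‖ev W z‖ * ‖(g a).eval z‖ ≤ Real.exp (S a) * T z) →
      ∀ f : ℝ[X], f.degree < (D : WithBot ℕ) →
        ∃ (u : ℤ[X]) (h f₂ : ℝ[X]), u.degree < (D : WithBot ℕ) ∧ h.degree < (D : WithBot ℕ) ∧
          f₂.degree < ((D - P.natDegree : ℕ) : WithBot ℕ) ∧
          f = 4 * u.map (Int.castRingHom ℝ) + h + P.map (Int.castRingHom ℝ) * f₂ ∧
          ∀ z ∈ K, ‖ev W z‖ * ‖rv h z‖
            ≤ c * Real.exp ((∑ a ∈ rts P, S a - L * llc P) / P.natDegree) * T z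

/-- `NBLK`: one block of digits. `q = sd Ls ≤ D`. First the top `D - q` coefficients of `f` (digits
at infinity): coefficient `x` of `z^(M D + q + i)`, subtract `4 k` times the monomial, `|x - 4 k| ≤ 2`,
and `(x - 4 k) p₀^M z^(q+i)` (monic of degree `M D + q + i`, bounded by `C TP^M` on `K`). If `M = 0`
round ALL `D` coefficients in this way (monomials `z^i`) and put `f₂ = 0`. If `M ≥ 1`: induction on the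
list: for each `P` of the list apply `NDIG` with `W P₁ ⋯ P_(i-1)` (the product is bounded by `C ‖W‖` on
`K`), `D' = M D + (remaining degrees)`, `L = (M - 1) D`, `g a = (nt a)^M`, `nt a` of degree `≤ D` with
value `1` at `a` and `‖nt a‖ ≤ TP / TP a` (from `Blk`, see `exists_nt` in
`Work/MP_ce2d68_st_helper90/ETG.lean`), `S a = log (C E) - M log (TP a)`. Note `deg P ≤ q ≤ D`, so
`2 deg P + (M-1) D ≤ M D + deg P ≤ D'`. -/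
def Stmt_NBLK : Prop :=
  ∀ (K : Set ℂ) (Ls : List ℤ[X]) (D : ℕ) (TP : ℂ → ℝ) (p₀ : ℂ[X]) (A : ℝ),
    IsCompact K → (∀ z ∈ K, conj z ∈ K) → (∀ P ∈ Ls, IP P) → sd Ls ≤ D →
    Blk D TP → Sym TP → p₀.Monic → RealP p₀ → p₀.natDegree = D →
    (∀ z ∈ K, ‖p₀.eval z‖ ≤ TP z) → 0 ≤ A →
    (∀ P ∈ Ls, -(A * P.natDegree) ≤ D * llc P + ∑ a ∈ rts P, Real.log (TP a)) →
    ∃ c : ℝ, 0 < c ∧ ∀ (M : ℕ) (W : ℤ[X]) (T : ℂ → ℝ) (E : ℝ), 0 < E → Sym T →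
      (∀ z ∈ K, 0 ≤ T z) → (∀ z ∈ K, ‖ev W z‖ * TP z ^ M ≤ E * T z) →
      ∀ f : ℝ[X], f.degree < (((M + 1) * D : ℕ) : WithBot ℕ) →
        ∃ (u : ℤ[X]) (h f₂ : ℝ[X]), u.degree < (((M + 1) * D : ℕ) : WithBot ℕ) ∧
          f₂.degree < ((M * D : ℕ) : WithBot ℕ) ∧
          f = 4 * u.map (Int.castRingHom ℝ) + h + Ls.prod.map (Int.castRingHom ℝ) * f₂ ∧
          ∀ z ∈ K, ‖ev W z‖ * ‖rv h z‖ ≤ c * Real.exp (A * M) * E * T z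

/-- `EXT`: the existence theorem. Adapt `stmt_ETG` (`Work/MP_ce2d68_st_helper90/ETG.lean`):
`n = N (D + m)`, `m' = N m`, `H = X^(N D)` in `TOPP`; instead of `ETR` use `NBLK` `N` times
(induction over blocks `s = 0..N-1`, `W = (Ls.prod)^s`, `M = N - 1 - s`, `T = (TP TO)^N`,
`E = C₀ e^(lam s - om N)`, `C₀ ≥ 1 / TP` on `K`): the errors are `≤ c C₀ e^(A (N-1-s) + lam s - om N)
≤ c C₀ e^(-N)` each. Then Eisenstein (`EIS`) and the maximum principle (`MAXP`) as there. -/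
def Stmt_EXT : Prop :=
  ∀ (K : Set ℂ) (Ls : List ℤ[X]) (D m : ℕ) (TP TO : ℂ → ℝ) (p₀ p : ℂ[X]) (lam A om : ℝ),
    IsCompact K → (∀ z ∈ K, conj z ∈ K) → (∀ P ∈ Ls, IP P) → sd Ls ≤ D → 1 ≤ D →
    Blk D TP → Sym TP → Continuous TO → (∀ z, 0 < TO z) → Sym TO → 0 ≤ lam → 0 ≤ A →
    (∀ z ∈ K, ‖ev Ls.prod z‖ ≤ Real.exp lam * TP z) → (∀ z ∈ K, Real.exp om ≤ TO z) →
    (∀ P ∈ Ls, -(A * P.natDegree) ≤ D * llc P + ∑ a ∈ rts P, Real.log (TP a)) →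
    max A lam + 1 ≤ om →
    p₀.Monic → RealP p₀ → p₀.natDegree = D → (∀ z ∈ K, ‖p₀.eval z‖ ≤ TP z) →
    p.Monic → p.natDegree = D + m → RealP p → (∀ z ∈ K, ‖p.eval z‖ ≤ TP z * TO z) →
    (∀ z, z ∉ K → ‖p.eval z‖ = TP z * TO z) →
    (∀ N : ℕ, 1 ≤ N → ∀ i ∈ Finset.Icc 1 (N * m), ∃ B : ℂ[X], B.Monic ∧ RealP B ∧
      B.natDegree = N * (D + m) - i ∧ ∀ z ∈ K, ‖B.eval z‖ ≤ (1 / 10 : ℝ) ^ i * (TP z * TO z) ^ N) →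
    ∀ N₀ : ℕ, ∃ N : ℕ, N₀ ≤ N ∧ ∃ F : ℤ[X], F.Monic ∧ F.natDegree = N * (D + m) ∧
      Irreducible F ∧ 2 ≤ |F.coeff 0| ∧ (∀ z, ev F z = 0 → z ∈ K) ∧
      ∀ z, ‖ev F z‖ ≤ 3 / 2 * (TP z * TO z) ^ N

/-- `EXP`: the existence theorem for discs, from `EXT` and `ACHV`; adapt `stmt_ETP`
(`Work/MP_ce2d68_st_helper23/ETP.lean`) with `K = {|arg z| ≤ θ, |z| ≤ rK}`, `TP = Tn G t n`,
`TO = max (|z - b|, R)^m`, `p₀ = ∏ (X - a)^(n a)`, `p = p₀ (X - b)^m`,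
`B = p₀^N (X - b)^(N m - i)`; `D llc P + ∑_x log Tn x = ∑_a n a Lt t P a`. -/
def Stmt_EXP : Prop :=
  ∀ (θ : ℝ) (G : Finset ℂ) (n : ℂ → ℕ) (t b R rK : ℝ) (D m : ℕ) (Ls : List ℤ[X]) (lam A om : ℝ),
    0 < θ → θ < Real.pi → 0 < t → (∀ a ∈ G, conj a ∈ G ∧ n (conj a) = n a) →
    ∑ a ∈ G, n a = D → 1 ≤ D →
    (∀ a ∈ G, ∀ z : ℂ, ‖z - a‖ ≤ t → |z.arg| ≤ θ ∧ ‖z‖ ≤ rK) →
    10 ≤ R → (∀ z : ℂ, ‖z - (b : ℂ)‖ ≤ R → |z.arg| ≤ θ ∧ ‖z‖ ≤ rK) →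
    (∀ P ∈ Ls, IP P) → sd Ls ≤ D → 0 ≤ lam → 0 ≤ A →
    (∀ z : ℂ, ‖z‖ ≤ rK → ‖ev Ls.prod z‖ ≤ Real.exp lam * Tn G t n z) →
    (∀ z : ℂ, ‖z‖ ≤ rK → Real.exp om ≤ (max ‖z - (b : ℂ)‖ R) ^ m) →
    (∀ P ∈ Ls, -(A * P.natDegree) ≤ ∑ a ∈ G, n a * Lt t P a) →
    max A lam + 1 ≤ om →
    Ach θ ((∑ a ∈ G, n a * ca (fun z => Real.log (max ‖z - a‖ t))
      + m * ca (fun z => Real.log (max ‖z - (b : ℂ)‖ R))) / ((D + m : ℕ) : ℝ))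

/-! ### Part B: the base, from Minkowski's theorem -/

/-- `GMINK`: Minkowski's theorem for polynomials `G₁ + i G₂` with Gaussian integer coefficients of
degree `< ν = card N`, the convex body `|G a| ≤ κ ∏_{b ≠ a} |a - b|` (`a ∈ N`). The map `G ↦ (G a)_a`
is the Vandermonde matrix `V`, `|det V|² = ∏_{a ≠ b} |a - b|`; the volume of the body in
`ℂ^ν = ℝ^(2ν)` is `(π κ²)^ν ∏_a ∏_{b≠a} |a-b|² / |det V|² = (π κ²)^ν |det V|²`; with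
`κ = 2 |det V|^(-1/ν)` it is `(4 π)^ν > 4^ν`. -/
def Stmt_GMINK : Prop :=
  ∀ N : Finset ℂ, N.Nonempty → ∃ G₁ G₂ : ℤ[X], (G₁ ≠ 0 ∨ G₂ ≠ 0) ∧
    G₁.natDegree < N.card ∧ G₂.natDegree < N.card ∧
    ∀ a ∈ N, ‖ev G₁ a + Complex.I * ev G₂ a‖ ≤
      2 * Real.exp (-(∑ a ∈ N, ∑ b ∈ N.erase a, Real.log ‖a - b‖) / (2 * N.card))
        * ∏ b ∈ N.erase a, ‖a - b‖

/-- `ROT`: choice of a rotation. The average over `|w| = 1` of `∑_a log |(a - p)^n - t^n w|` is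
`∑_a n log max (|a - p|, t)` (Jensen; `circleAverage_log_norm_sub_const_eq_posLog` of Mathlib), so
some `w` outside the finite set of zeros gives at least the average; `ζ^n = w`. -/
def Stmt_ROT : Prop :=
  ∀ (A : Finset ℂ) (p : ℂ) (t : ℝ) (n : ℕ), 0 < t → 1 ≤ n → ∃ ζ : ℂ, ‖ζ‖ = 1 ∧
    (∀ a ∈ A, (a - p) ^ n ≠ (t * ζ) ^ n) ∧
    ∑ a ∈ A, n * Real.log (max ‖a - p‖ t) ≤ ∑ a ∈ A, Real.log ‖(a - p) ^ n - (t * ζ) ^ n‖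

/-- `POLY`: regular polygons. `N = {p + t ζ ω^k}`. -/
def Stmt_POLY : Prop :=
  ∀ (p ζ : ℂ) (t : ℝ) (n : ℕ), 0 < t → 1 ≤ n → ‖ζ‖ = 1 → ∃ N : Finset ℂ, N.card = n ∧
    (∀ a ∈ N, ‖a - p‖ = t) ∧
    (∀ z : ℂ, ∏ b ∈ N, (z - b) = (z - p) ^ n - (t * ζ) ^ n) ∧
    (∀ a ∈ N, ∀ z : ℂ, ∏ b ∈ N.erase a, ‖z - b‖ ≤ n / t * (max ‖z - p‖ t) ^ n) ∧
    (n * (n - 1) * Real.log t ≤ ∑ a ∈ N, ∑ b ∈ N.erase a, Real.log ‖a - b‖) ∧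
    ∀ f : ℂ → ℝ, (∀ x y, |f x - f y| ≤ ‖x - y‖ / t) →
      |∑ a ∈ N, f a - n * Real.circleAverage f p t| ≤ 2 * Real.pi

/-- `SYMC`: the mutual energies are symmetric (reflection `z ↦ p + q - z`). -/
def Stmt_SYMC : Prop :=
  ∀ (p q : ℂ) (t : ℝ), 0 < t →
    Real.circleAverage (fun z => Real.log (max ‖z - p‖ t)) q t
      = Real.circleAverage (fun z => Real.log (max ‖z - q‖ t)) p t ∧
    Real.circleAverage (fun z => Real.log (max ‖z - p‖ t)) p t = Real.log t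

/-- `NODES`: nodes on the circles `|z - a| = t`, `a ∈ G`, by induction over `G` (insert a point `p`
with its polygon, rotated by `ROT` against all earlier nodes `A`): the nodes of different circles are
distinct by `ROT`. Cross terms: `2 ∑_{a ∈ A} log |(a-p)^(n p) - (tζ)^(n p)| ≥ 2 (n p) ∑_{a ∈ A}
log max (|a - p|, t)`, and the sum over the nodes of an earlier circle `q` is within `2π` of
`(n q) ×` the circle average (`POLY`; `z ↦ log max (|z - p|, t)` is `1/t`-Lipschitz); `SYMC`. Product bound: `∏_{b ∈ N_q} |z - b|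
= |(z-q)^(n q) - (tζ_q)^(n q)| ≤ 2 max (|z-q|, t)^(n q)` for the other circles (`C = 2^(card G) / t + …`). -/
def Stmt_NODES : Prop :=
  ∀ (G : Finset ℂ) (t : ℝ), 0 < t → ∃ C : ℝ, 0 < C ∧ ∀ n : ℂ → ℕ, 1 ≤ ∑ a ∈ G, n a →
    ∃ N : Finset ℂ, N.card = ∑ a ∈ G, n a ∧
      (∀ a ∈ N, ∀ z : ℂ, ∏ b ∈ N.erase a, ‖z - b‖ ≤ C * N.card * Tn G t n z) ∧
      (∑ a ∈ G, n a * Real.circleAverage (fun z => Real.log (Tn G t n z)) a t) - C * N.card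
        ≤ ∑ a ∈ N, ∑ b ∈ N.erase a, Real.log ‖a - b‖

/-- `MPOLY`: `Q = G₁² + G₂²`, `|Q z| = |G z| |G (conj z)|`, `G = G₁ + i G₂` from `GMINK` with the
nodes of `NODES`, `G z = ∑_a G a ∏_{b ≠ a} (z - b) / (a - b)` (Lagrange). -/
def Stmt_MPOLY : Prop :=
  ∀ (G : Finset ℂ) (t : ℝ), 0 < t → (∀ a ∈ G, conj a ∈ G) → ∃ C : ℝ, 0 < C ∧
    ∀ n : ℂ → ℕ, (∀ a ∈ G, n (conj a) = n a) → 1 ≤ ∑ a ∈ G, n a →
    ∃ Q : ℤ[X], Q ≠ 0 ∧ Q.natDegree ≤ 2 * ∑ a ∈ G, n a ∧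
      ∀ z : ℂ, ‖ev Q z‖ ≤ Real.exp (C * (1 + Real.log ((∑ a ∈ G, n a : ℕ) : ℝ))
          - (∑ a ∈ G, n a * Real.circleAverage (fun z => Real.log (Tn G t n z)) a t)
            / ((∑ a ∈ G, n a : ℕ) : ℝ)) * Tn G t n z ^ 2

/-- `JENL`: factorisation and Jensen's formula -/
def Stmt_JENL : Prop :=
  ∀ Q : ℤ[X], Q ≠ 0 → ∃ Ls : List ℤ[X], (∀ P ∈ Ls, IP P) ∧ sd Ls = Q.natDegree ∧
    (∀ z, ‖ev Ls.prod z‖ ≤ ‖ev Q z‖) ∧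
    ∀ (a : ℂ) (t : ℝ), 0 < t →
      (Ls.map fun P => Lt t P a).sum ≤ Real.circleAverage (fun z => Real.log ‖ev Q z‖) a t

/-- `BASEQ`: the base. `𝓕` = all factors (`JENL`) of the `Q` of `MPOLY` for the finitely many `n`
(values on `G`) with `∑ n = ν`. With `I = ∑_a n a CA_a (log Tn)`: `-(κ ν · 2 ν) ≤ ∑_P ∑_a n a Lt t P a
≤ ∑_a n a CA_a (log |Q|) ≤ ν (C (1 + log ν) - I / ν) + 2 I`, so `-I/ν ≤ 2 κ ν + C (1 + log ν)`. -/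
def Stmt_BASEQ : Prop :=
  ∀ (G : Finset ℂ) (t : ℝ), 0 < t → (∀ a ∈ G, conj a ∈ G) → ∀ δ : ℝ, 0 < δ →
    ∃ ν₀ : ℕ, ∀ ν : ℕ, ν₀ ≤ ν → ∃ F : Finset ℤ[X], (∀ P ∈ F, IP P) ∧
      ∀ (n : ℂ → ℕ) (κ : ℝ), (∀ a ∈ G, n (conj a) = n a) → ∑ a ∈ G, n a = ν → 0 ≤ κ →
        (∀ P ∈ F, -(κ * ν * P.natDegree) ≤ ∑ a ∈ G, n a * Lt t P a) →
        ∃ Ls : List ℤ[X], (∀ P ∈ Ls, P ∈ F) ∧ sd Ls ≤ 2 * ν ∧
          ∀ z : ℂ, ‖ev Ls.prod z‖ ≤ Real.exp (2 * ν * (κ + δ)) * Tn G t n z ^ 2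

/-! ### Part C: the alternative and the certificates -/

/-- `HB`: Hahn-Banach (`geometric_hahn_banach_open`) in `(F → ℝ) × ℝ`: if the second alternative
fails, the convex set `{(y, κ) | y = ∑ μ_a φ(·,a) + s d, κ = ∑ μ_a k a + s, μ probability on G, s ≥ 0}`
does not meet the open convex set `{y_P > -ε, κ < m + ε}`; a separating functional `(-x, λ)` has
`x ≥ 0`, `λ ≥ 0`, `λ ≥ ∑ x_P d P` (let `s → ∞`), so `λ > 0` (else `x = 0`); normalise `λ = 1`. -/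
def Stmt_HB : Prop :=
  ∀ (G : Finset ℂ) (F : Finset ℤ[X]) (φ : ℤ[X] → ℂ → ℝ) (d : ℤ[X] → ℝ) (k : ℂ → ℝ) (m ε : ℝ),
    G.Nonempty → 0 < ε → (∀ P ∈ F, 0 < d P) →
    (∃ x : ℤ[X] → ℝ, (∀ P, 0 ≤ x P) ∧ ∑ P ∈ F, x P * d P ≤ 1 ∧
      ∀ a ∈ G, ∑ P ∈ F, x P * φ P a ≤ k a - m) ∨
    (∃ (μ : ℂ → ℝ) (s : ℝ), (∀ a, 0 ≤ μ a) ∧ 0 ≤ s ∧ ∑ a ∈ G, μ a = 1 ∧
      (∀ P ∈ F, -ε ≤ ∑ a ∈ G, μ a * φ P a + s * d P) ∧ ∑ a ∈ G, μ a * k a + s ≤ m + ε)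

/-- `BW`: Bernstein-Walsh for a disc (maximum principle) -/
def Stmt_BW : Prop :=
  ∀ (Q : ℂ[X]) (M : ℕ) (c : ℂ) (ρ B : ℝ), Q.natDegree ≤ M → 0 < ρ →
    (∀ w : ℂ, ‖w - c‖ ≤ ρ → ‖Q.eval w‖ ≤ B) →
    ∀ z : ℂ, ρ ≤ ‖z - c‖ → ‖Q.eval z‖ ≤ B * (‖z - c‖ / ρ) ^ M

/-- `CERT`: certificates from real weights on a grid. `k_P = ⌊M x_P⌋`, `Q = ∏ P^(k_P)`, `M` large,
`deg Q ≤ M`; `log |P z| ≤ llc P + ∑ log max (|x - z|, t) ≤ Lt t P a + deg P · |z - a| / t`. So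
`|Q| ≤ e^(-M m₁) max(1,|z|)^((1-2η) M)` on `r₁ ≤ |z| ≤ R₁`, `|arg z| ≤ θ`. Multiply by `X^j`,
`j = ⌈η M⌉`. For `|z| > R₁` use `BW` with the disc of centre `R₁/2`, radius `σ R₁/2`
(`σ = min(1/2, (sin θ)/2 …)` such that the disc is in the sector and in `|z| ≥ r₁`), gain
`R₁^(-2η) · 4/σ ≤ 1`; for `|z| < r₁` use `BW` with centre `2 r₁`, radius `σ r₁` and
`|z|^j ≤ r₁^(η M) ≤ (σ/3)^M`. Finally `v^(M+j) ≤ e^(m₁ M)`. -/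
def Stmt_CERT : Prop :=
  ∀ θ η : ℝ, 0 < θ → θ < Real.pi → 0 < η → η < 1 / 2 → ∃ r₁ R₁ : ℝ, 0 < r₁ ∧ r₁ < 1 ∧ 1 < R₁ ∧
    ∀ (t τ : ℝ) (G : Finset ℂ) (F : Finset ℤ[X]) (x : ℤ[X] → ℝ) (m m₁ : ℝ), 0 < t → 0 < τ →
      (∀ z : ℂ, |z.arg| ≤ θ → r₁ ≤ ‖z‖ → ‖z‖ ≤ R₁ → ∃ a ∈ G, ‖z - a‖ ≤ τ) →
      (∀ P ∈ F, IP P) → (∀ P, 0 ≤ x P) → ∑ P ∈ F, x P * P.natDegree ≤ 1 →
      (∀ a ∈ G, ∑ P ∈ F, x P * Lt t P a ≤ (1 - 2 * η) * Real.posLog ‖a‖ - m) →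
      0 ≤ m₁ → m₁ < m - τ / t - τ → Cert θ (Real.exp (m₁ / (1 + 2 * η)))

/-- `WEAK`: weak duality. If `F` is admissible of degree larger than `deg Q`, it does not divide `Q`,
so (`NBAS`/`BAS`, `RES`) `1 ≤ ∏ |Q a|`, `v^(n d) ≤ M(F)^n`. -/
def Stmt_WEAK : Prop :=
  ∀ θ v x : ℝ, 0 < v → Cert θ v → Ach θ x → Real.log v ≤ x

/-- `FARD`: one far disc with cost close to the gain: `R = σ b`, `b → ∞`; cost `≤ log (b + 1)`. -/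
def Stmt_FARD : Prop :=
  ∀ θ δ : ℝ, 0 < θ → θ < Real.pi → 0 < δ → ∃ b R : ℝ, 10 ≤ R ∧
    (∀ z : ℂ, ‖z - (b : ℂ)‖ ≤ R → |z.arg| ≤ θ ∧ ‖z‖ ≤ 2 * b) ∧
    ca (fun z => Real.log (max ‖z - (b : ℂ)‖ R)) ≤ (1 + δ) * Real.log R

/-- `GRID`: a finite net (compactness) -/
def Stmt_GRID : Prop :=
  ∀ θ r₁ R₁ τ : ℝ, 0 < θ → θ < Real.pi → 0 < r₁ → r₁ < 1 → 1 < R₁ → 0 < τ →
    ∃ G : Finset ℂ, (1 : ℂ) ∈ G ∧ (∀ a ∈ G, conj a ∈ G) ∧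
      (∀ a ∈ G, |a.arg| ≤ θ ∧ r₁ ≤ ‖a‖ ∧ ‖a‖ ≤ R₁) ∧
      ∀ z : ℂ, |z.arg| ≤ θ → r₁ ≤ ‖z‖ → ‖z‖ ≤ R₁ → ∃ a ∈ G, ‖z - a‖ ≤ τ

/-- `RND`: rounding of symmetric weights; `n a = ⌊ν μ a⌋` for `a ≠ 1`, the rest at `1`; and the effect
on `Lt`: `|Lt t P a - Lt t P 1| ≤ deg P · log (1 + |a - 1| / t)`. -/
def Stmt_RND : Prop :=
  ∀ (G : Finset ℂ) (t : ℝ), 0 < t → (1 : ℂ) ∈ G → (∀ a ∈ G, conj a ∈ G) → ∃ C : ℝ, 0 < C ∧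
    ∀ (μ : ℂ → ℝ) (ν : ℕ), (∀ a, 0 ≤ μ a) → (∀ a ∈ G, μ (conj a) = μ a) → ∑ a ∈ G, μ a = 1 →
      ∃ n : ℂ → ℕ, (∀ a ∈ G, n (conj a) = n a) ∧ ∑ a ∈ G, n a = ν ∧
        (∀ a ∈ G, |(n a : ℝ) - ν * μ a| ≤ G.card) ∧
        ∀ P : ℤ[X], IP P →
          ν * ∑ a ∈ G, μ a * Lt t P a - C * P.natDegree ≤ ∑ a ∈ G, n a * Lt t P a

/-- `ALT`: the alternative, from `CERT`, `HB`, `BASEQ`, `EXP`, `RND`, `GRID`, `FARD`, `COST`,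
`GEO2` -/
def Stmt_ALT : Prop :=
  ∀ θ θ' m ε₀ : ℝ, 0 < θ → θ < θ' → θ' < Real.pi → 0 ≤ m → 0 < ε₀ →
    Ach θ' (m + ε₀) ∨ Cert θ (Real.exp (m - ε₀))

/-- `DUAL`: strong duality -/
def Stmt_DUAL : Prop :=
  ∀ θ m : ℝ, 0 < θ → θ < Real.pi → m < lec θ → Cert θ (Real.exp m)

end Pool.Agent.Work.MP_ce2d68_du
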